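import Mathlib
import Pool.Agent.Helper83.VF.Main
import Pool.Agent.Helper70.VF.Assembly

/-!
# Varieties with an automorphism of finite order: reduction to eigenfunctions
-/

set_option linter.unusedSectionVars false

namespace VH

open VC VP VF Function

universe u

variable {k : Type u} [Field k] {m : ℕ} [NeZero m]

/-- An action of `ℤ / m` on the closed points of `X` by maps induced by morphisms. -/
structure Act (X : Variety k) (m : ℕ) where
  act : ZMod m → X.Pt → X.Pt
  zero : ∀ p, act 0 p = p
  add : ∀ x y p, act (x + y) p = act x (act y p)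
  ind : ∀ x, Induced X X (act x)

lemma induced_iterate {X : Variety k} {g : X.Pt → X.Pt} (hi : Induced X X g) (j : ℕ) :
    Induced X X (g^[j]) := by
  induction j with
  | zero =>
    intro K _ _ hK c
    exact ⟨c, fun v => rfl⟩
  | succ j ih =>
    intro K _ _ hK c
    obtain ⟨d, hd⟩ := ih K hK c
    obtain ⟨e, he⟩ := hi K hK d
    exact ⟨e, fun v => by rw [he, hd, iterate_succ_apply']⟩

lemma iterate_mod {X : Variety k} {g : X.Pt → X.Pt} (hg : ∀ p, g^[m] p = p) (j : ℕ) (p : X.Pt) :
    g^[j % m] p = g^[j] p := by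
  conv_rhs => rw [← Nat.mod_add_div j m]
  rw [iterate_add_apply]
  have h1 : ∀ l, g^[m * l] p = p := by
    intro l
    induction l with
    | zero => rfl
    | succ l ih => rw [Nat.mul_succ, iterate_add_apply, hg, ih]
  rw [h1]

/-- The action generated by an automorphism of finite order. -/
def Act.ofIterate {X : Variety k} (g : X.Pt → X.Pt) (hi : Induced X X g)
    (hg : ∀ p, g^[m] p = p) : Act X m where
  act x := g^[x.val]
  zero p := by rw [ZMod.val_zero]; rfl
  add x y p := by rw [ZMod.val_add, iterate_mod hg, iterate_add_apply]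
  ind x := induced_iterate hi _

/-- The function `Ψ` on the closed points of `X ^ n` vanishes on the cycles rationally equivalent
to zero, it is an eigenfunction with character `χ i` on the factor `i`, and it is antisymmetric
for transpositions of factors with equal characters. -/
structure EigA {X : Variety k} (E : AddChar (ZMod m) k) (α : Act X m) {n : ℕ}
    (χ : Fin n → ZMod m) (Ψ : (X.pow n).Pt → k) : Prop where
  kills : Kills (X.pow n) Ψ
  equi : ∀ (p : (X.pow n).Pt) (i : Fin n) (x : ZMod m),
    Ψ (update p i (α.act x (p i))) = E (χ i * x) * Ψ p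
  alt : ∀ i j, i ≠ j → χ i = χ j → ∀ p : (X.pow n).Pt,
    Ψ (fun l => p (Equiv.swap i j l)) = -Ψ p

section decomp

variable {n : ℕ}

/-- The pairing of characters and group elements. -/
def pairing (χ x : Fin n → ZMod m) : ZMod m := ∑ i, χ i * x i

lemma pairing_add (χ x y : Fin n → ZMod m) : pairing χ (x + y) = pairing χ x + pairing χ y := by
  simp [pairing, mul_add, Finset.sum_add_distrib]

lemma pairing_add_left (χ χ' x : Fin n → ZMod m) :
    pairing (χ + χ') x = pairing χ x + pairing χ' x := by
  simp [pairing, add_mul, Finset.sum_add_distrib]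

lemma pairing_single (χ : Fin n → ZMod m) (i : Fin n) (y : ZMod m) :
    pairing χ (Pi.single i y) = χ i * y := by
  unfold pairing
  rw [Finset.sum_eq_single i]
  · simp
  · intro l _ hl
    rw [Pi.single_eq_of_ne hl]
    simp
  · intro h
    exact absurd (Finset.mem_univ i) h

lemma pairing_swap (χ x : Fin n → ZMod m) (i j : Fin n) (h : χ i = χ j) :
    pairing χ (fun l => x (Equiv.swap i j l)) = pairing χ x := by
  unfold pairing
  rw [← Equiv.sum_comp (Equiv.swap i j) (fun l => χ l * x l)]
  refine Finset.sum_congr rfl fun l _ => ?_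
  have h1 : χ (Equiv.swap i j l) = χ l := by
    by_cases hi : l = i
    · rw [hi, Equiv.swap_apply_left, h]
    · by_cases hj : l = j
      · rw [hj, Equiv.swap_apply_right, h]
      · rw [Equiv.swap_apply_of_ne_of_ne hi hj]
  rw [h1]

/-- Orthogonality of characters. -/
theorem sum_char_eq {E : AddChar (ZMod m) k} (hE : IsFull E) (x : Fin n → ZMod m) :
    ∑ χ : Fin n → ZMod m, E (-pairing χ x)
      = if x = 0 then (Fintype.card (Fin n → ZMod m) : k) else 0 := by
  classical
  let φ : (Fin n → ZMod m) →+ ZMod m :=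
    { toFun := fun χ => -pairing χ x
      map_zero' := by simp [pairing]
      map_add' := fun a b => by rw [pairing_add_left]; ring }
  have h1 : ∑ χ : Fin n → ZMod m, E (-pairing χ x)
      = ∑ χ, (E.compAddMonoidHom φ) χ := rfl
  rw [h1, AddChar.sum_eq_ite]
  have h2 : E.compAddMonoidHom φ = 0 ↔ x = 0 := by
    constructor
    · intro h
      by_contra hx
      obtain ⟨i, hi⟩ := Function.ne_iff.mp hx
      have h3 := DFunLike.congr_fun h (Pi.single i 1)
      have h4 : pairing (Pi.single i 1) x = x i := by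
        unfold pairing
        rw [Finset.sum_eq_single i]
        · rw [Pi.single_eq_same, one_mul]
        · intro l _ hl
          rw [Pi.single_eq_of_ne hl]
          simp
        · intro h
          exact absurd (Finset.mem_univ i) h
      have h5 : E (-x i) = 1 := by
        rw [← h4]
        exact h3
      have h6 := hE.1 _ h5
      exact hi (neg_eq_zero.1 h6)
    · rintro rfl
      ext χ
      simp [φ, pairing]
  simp only [h2]

variable [IsAlgClosed k] [CharZero k] {X : Variety k} (α : Act X m)

/-- The action on all factors. -/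
def TW (x : Fin n → ZMod m) (p : (X.pow n).Pt) : (X.pow n).Pt := fun i => α.act (x i) (p i)

lemma induced_TW (x : Fin n → ZMod m) : Induced (X.pow n) (X.pow n) (TW α x) :=
  induced_pow _ fun i => α.ind (x i)

/-- The component of `Φ` for the character `χ`. -/
noncomputable def comp (E : AddChar (ZMod m) k) (Φ : (X.pow n).Pt → k)
    (χ : Fin n → ZMod m) (p : (X.pow n).Pt) : k :=
  (Fintype.card (Fin n → ZMod m) : k)⁻¹ *
    ∑ x : Fin n → ZMod m, E (-pairing χ x) * Φ (TW α x p)

lemma sum_comp_eq {E : AddChar (ZMod m) k} (hE : IsFull E)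
    (Φ : (X.pow n).Pt → k) (p : (X.pow n).Pt) :
    ∑ χ, comp α E Φ χ p = Φ p := by
  classical
  unfold comp
  rw [← Finset.mul_sum, Finset.sum_comm]
  have h1 : ∀ x : Fin n → ZMod m, ∑ χ : Fin n → ZMod m,
      E (-pairing χ x) * Φ (TW α x p) = (if x = 0 then
        (Fintype.card (Fin n → ZMod m) : k) else 0) * Φ (TW α x p) := by
    intro x
    rw [← Finset.sum_mul, sum_char_eq hE]
  rw [Finset.sum_congr rfl fun x _ => h1 x]
  have h2 : TW α 0 p = p := funext fun i => α.zero (p i)
  have h3 : (Fintype.card (Fin n → ZMod m) : k) ≠ 0 :=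
    Nat.cast_ne_zero.2 Fintype.card_ne_zero
  rw [Finset.sum_eq_single 0]
  · rw [if_pos rfl, h2, ← mul_assoc, inv_mul_cancel₀ h3, one_mul]
  · intro x _ hx
    rw [if_neg hx, zero_mul]
  · intro h
    exact absurd (Finset.mem_univ _) h

lemma eig_comp {E : AddChar (ZMod m) k} {Φ : (X.pow n).Pt → k}
    (hΦ : Kills (X.pow n) Φ)
    (halt : ∀ i j, i ≠ j → ∀ p : (X.pow n).Pt,
      Φ (fun l => p (Equiv.swap i j l)) = -Φ p) (χ : Fin n → ZMod m) :
    EigA E α χ (comp α E Φ χ) := by
  classical
  refine ⟨?_, ?_, ?_⟩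
  · refine Kills.smul _ (Kills.sum _ fun x _ => Kills.smul _ ?_)
    exact hΦ.comp (induced_TW α x)
  · intro p i y
    unfold comp
    rw [mul_left_comm]
    congr 1
    rw [Finset.mul_sum, ← Equiv.sum_comp (Equiv.addRight (Pi.single i y))
      (fun x => E (χ i * y) * (E (-pairing χ x) * Φ (TW α x p)))]
    refine Finset.sum_congr rfl fun x _ => ?_
    have h1 : TW α x (update p i (α.act y (p i))) = TW α (x + Pi.single i y) p := by
      funext l
      unfold TW
      by_cases hl : l = i
      · subst hl
        rw [update_self, ← α.add, Pi.add_apply, Pi.single_eq_same]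
      · rw [update_of_ne hl, Pi.add_apply, Pi.single_eq_of_ne hl, add_zero]
    rw [Equiv.coe_addRight, h1, pairing_add, pairing_single, ← mul_assoc,
      ← AddChar.map_add_eq_mul]
    congr 2
    ring
  · intro i j hij hχ p
    unfold comp
    rw [← mul_neg]
    congr 1
    rw [← Finset.sum_neg_distrib,
      ← Equiv.sum_comp (Equiv.arrowCongr (Equiv.swap i j) (Equiv.refl (ZMod m)))
        (fun x => -(E (-pairing χ x) * Φ (TW α x p)))]
    refine Finset.sum_congr rfl fun x _ => ?_
    have h1 : (Equiv.arrowCongr (Equiv.swap i j) (Equiv.refl (ZMod m))) x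
        = fun l => x (Equiv.swap i j l) := by
      funext l
      simp [Equiv.arrowCongr_apply]
    have h2 : TW α x (fun l => p (Equiv.swap i j l))
        = fun l => TW α (fun l => x (Equiv.swap i j l)) p (Equiv.swap i j l) := by
      funext l
      change α.act (x l) (p (Equiv.swap i j l))
        = α.act (x (Equiv.swap i j (Equiv.swap i j l))) (p (Equiv.swap i j l))
      rw [Equiv.swap_apply_self]
    rw [h1, h2, halt i j hij, pairing_swap χ x i j hχ, mul_neg]

/-! ### The alternating part -/

/-- The alternating part of a function. -/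
noncomputable def alt (Φ : (X.pow n).Pt → k) (p : (X.pow n).Pt) : k :=
  ∑ σ : Equiv.Perm (Fin n), ((Equiv.Perm.sign σ : ℤˣ) : ℤ) * Φ (fun i => p (σ i))

omit [NeZero m] in
lemma kills_alt {Φ : (X.pow n).Pt → k} (hΦ : Kills (X.pow n) Φ) :
    Kills (X.pow n) (alt Φ) :=
  Kills.sum _ fun σ _ => Kills.smul _ (hΦ.comp (induced_perm σ))

omit [NeZero m] in
lemma alt_swap (Φ : (X.pow n).Pt → k) (i j : Fin n) (hij : i ≠ j)
    (p : (X.pow n).Pt) : alt Φ (fun l => p (Equiv.swap i j l)) = -alt Φ p := by
  unfold alt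
  rw [← Finset.sum_neg_distrib, ← Equiv.sum_comp (Equiv.mulLeft (Equiv.swap i j))
    (fun σ => -((((Equiv.Perm.sign σ : ℤˣ) : ℤ) : k) * Φ (fun i => p (σ i))))]
  refine Finset.sum_congr rfl fun σ _ => ?_
  rw [Equiv.coe_mulLeft, Equiv.Perm.sign_mul, Equiv.Perm.sign_swap hij]
  simp [Equiv.Perm.mul_apply]

omit [NeZero m] in
lemma lc_alt (Φ : (X.pow n).Pt → k) (a : Fin n → X.Cycles) :
    Finsupp.linearCombination ℤ Φ
      (∑ σ : Equiv.Perm (Fin n), ((Equiv.Perm.sign σ : ℤˣ) : ℤ) • extProd (fun i => a (σ i)))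
      = Finsupp.linearCombination ℤ (alt Φ) (extProd a) := by
  unfold alt
  rw [lc_sum (X.pow n), map_sum]
  refine Finset.sum_congr rfl fun σ _ => ?_
  rw [map_zsmul, lc_smul (X.pow n), extProd_perm, Finsupp.linearCombination_mapDomain,
    zsmul_eq_mul]
  rfl

/-- The reduction to eigenfunctions. -/
theorem assembly (n : ℕ) (a : Fin n → X.Cycles)
    (H : ∀ E : AddChar (ZMod m) k, IsFull E → ∀ (χ : Fin n → ZMod m)
      (Ψ : (X.pow n).Pt → k), EigA E α χ Ψ →
      Finsupp.linearCombination ℤ Ψ (extProd a) = 0) :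
    ∃ N : ℕ, 0 < N ∧ N • ∑ σ : Equiv.Perm (Fin n), ((Equiv.Perm.sign σ : ℤˣ) : ℤ) •
      extProd (fun i => a (σ i)) ∈ (X.pow n).Rat := by
  refine separation (X.pow n) _ fun Φ hΦ => ?_
  obtain ⟨E, hE⟩ := exists_full (k := k) m
  rw [lc_alt]
  have h1 : alt Φ = fun p => ∑ χ, comp α E (alt Φ) χ p := by
    funext p
    rw [sum_comp_eq α hE]
  rw [h1, lc_sum (X.pow n)]
  refine Finset.sum_eq_zero fun χ _ => ?_
  exact H E hE χ _ (eig_comp α (kills_alt hΦ) (fun i j hij p => alt_swap Φ i j hij p) χ)

/-- The reduction to eigenfunctions, for cycles of degree zero: eigenfunctions vanish or do not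
depend on one of the points. -/
theorem assembly_deg (n : ℕ) (a : Fin n → X.Cycles) (ha : ∀ i, (a i).sum (fun _ z => z) = 0)
    (H : ∀ E : AddChar (ZMod m) k, IsFull E → ∀ (χ : Fin n → ZMod m)
      (Ψ : (X.pow n).Pt → k), EigA E α χ Ψ →
      (∀ p, Ψ p = 0) ∨ ∃ i, ∀ p x y, Ψ (update p i x) = Ψ (update p i y)) :
    ∃ N : ℕ, 0 < N ∧ N • ∑ σ : Equiv.Perm (Fin n), ((Equiv.Perm.sign σ : ℤˣ) : ℤ) •
      extProd (fun i => a (σ i)) ∈ (X.pow n).Rat := by
  refine assembly α n a fun E hE χ Ψ h => ?_
  change Finsupp.linearCombination ℤ Ψ (ext' a) = 0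
  rcases H E hE χ Ψ h with h0 | ⟨i, hi⟩
  · have : Ψ = fun _ => 0 := funext h0
    rw [this, Finsupp.linearCombination_apply]
    simp
  · exact lin_ext_zero hi a (ha i)

end decomp

section factors

variable [IsAlgClosed k] [CharZero k] {X : Variety k} {α : Act X m} {n : ℕ}
  {E : AddChar (ZMod m) k} {χ : Fin n → ZMod m} {Ψ : (X.pow n).Pt → k}

/-- The functions on one factor. -/
lemma EigA.one (h : EigA E α χ Ψ) (hq : ∀ (K : Type u) [Field K] [Algebra k K]
    (hK : IsFunctionField k K) (p : X.Pt), ∃ c : X.Mor K, ∀ v, X.eval hK c v = p)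
    (p : (X.pow n).Pt) (i : Fin n) :
    Kills X (fun x => Ψ (update p i x)) ∧
      ∀ x y, Ψ (update p i (α.act x y)) = E (χ i * x) * Ψ (update p i y) := by
  refine ⟨h.kills.comp (induced_update X p hq i), ?_⟩
  intro x y
  have := h.equi (update p i y) i x
  rw [update_self, update_idem] at this
  exact this

lemma induced_two (hq : ∀ (K : Type u) [Field K] [Algebra k K]
    (hK : IsFunctionField k K) (p : X.Pt), ∃ c : X.Mor K, ∀ v, X.eval hK c v = p)
    (p : (X.pow n).Pt) (i j : Fin n) :
    Induced (X.prod X) (X.pow n) (fun x => update (update p i x.1) j x.2) := by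
  intro K _ _ hK c
  choose d hd using fun l => hq K hK (p l)
  refine ⟨update (update d i c.1) j c.2, ?_⟩
  intro v
  change (fun l => X.eval hK (update (update d i c.1) j c.2 l) v) =
    update (update p i (X.eval hK c.1 v)) j (X.eval hK c.2 v)
  funext l
  by_cases hj : l = j
  · subst hj; simp
  · rw [update_of_ne hj, update_of_ne hj]
    by_cases hi : l = i
    · subst hi; simp
    · rw [update_of_ne hi, update_of_ne hi]
      exact hd l v

/-- The functions on two factors. -/
lemma EigA.two (h : EigA E α χ Ψ) (hq : ∀ (K : Type u) [Field K] [Algebra k K]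
    (hK : IsFunctionField k K) (p : X.Pt), ∃ c : X.Mor K, ∀ v, X.eval hK c v = p)
    (p : (X.pow n).Pt) {i j : Fin n} (hij : i ≠ j) :
    Kills (X.prod X) (fun x => Ψ (update (update p i x.1) j x.2)) ∧
      (∀ x y z, Ψ (update (update p i (α.act x y)) j z) =
        E (χ i * x) * Ψ (update (update p i y) j z)) ∧
      ∀ x y z, Ψ (update (update p i y) j (α.act x z)) =
        E (χ j * x) * Ψ (update (update p i y) j z) := by
  refine ⟨h.kills.comp (induced_two hq p i j), fun x y z => ?_, fun x y z => ?_⟩
  · have := (h.one hq (update p j z) i).2 x y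
    rw [update_comm hij.symm, update_comm hij.symm] at this
    exact this
  · exact (h.one hq (update p i y) j).2 x z

end factors

end VH
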